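import Pool.Agent.X32.Uni.Ach

/-!
# The Ankeny–Chowla–Hasse and Lang families at primes `q`: exact patterns of almost prime cofactors

Write `F_u(x) = (u x) ^ 2 + 1` for even `u` and `F_u(x) = (u x) ^ 2 + 4` for odd `u`, so that `𝒜 ∪ ℬ` is the set of the
primes `F_u(q)`, `q` prime, `u ≥ 3`. Let `S` be a finite list of multipliers `u ≥ 1`, `T` a finite set of other
multipliers, `b ≠ 0`, and `n₀, Q ≥ 1` with `n₀ + b ≠ 0`. Then, for all large `X`, every interval `(A, B]` with `B ≤ X`,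
`B - A ≥ θ X` contains at least `κ (B - A) V` integers `n` such that
* `n = n₀ p` with a prime `p` (`n` itself is prime for `n₀ = 1`),
* `n + b = (n₀ + b) v`, where `|v|` is a product of at most two primes `> X ^ (1/9)`,
* for all `u ∈ S`: `F_u(n) = F_u(n₀) w_u`, where `w_u` is a product of at most `2 t` primes `> X ^ (1/t)`,
* for all `u ∈ T`: `F_u(n) = F_u(n₀) w_u`, where `w_u` has a prime factor `≤ C` (so `F_u(n)` is not an almost prime),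
and all the cofactors are `≡ 1` modulo `Q`. For every colouring almost all of these `n` are covered by pairwise disjoint
monochromatic progressions of `s` such `n` with differences at most a power of `log X`.
-/

set_option autoImplicit false

namespace Pool.Agent.Results.MP_4b1228_nt.AlmostPrimeFamilies

open Finset

variable {k : ℕ}

/-- `1` for even `u`, `4` for odd `u` -/
def c (u : ℕ) : ℤ := if u % 2 = 0 then 1 else 4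

/-- `F_u(x) = (u x) ^ 2 + 1` for even `u`, `(u x) ^ 2 + 4` for odd `u` -/
def F (u : ℕ) (x : ℤ) : ℤ := (u * x) ^ 2 + c u

/-- `|v| > 1`, and `|v|` is a product of at most `r` primes, all of them larger than `y` -/
def Almost (r : ℕ) (y : ℝ) (v : ℤ) : Prop :=
  1 < |v| ∧ v.natAbs.primeFactorsList.length ≤ r ∧ ∀ q : ℕ, q.Prime → (q : ℤ) ∣ v → y < q

/-- `ω(p)`: the number of the zeros of `x (x + b) ∏ F_u(x)`, `u ∈ S`, modulo `p` -/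
noncomputable def omega (b : ℤ) (S : Fin k → ℕ) (p : ℕ) : ℕ :=
  ((range p).filter (fun x : ℕ => (p : ℤ) ∣ (x : ℤ) * (x + b) * ∏ l, F (S l) x)).card

/-- `z`: `Q` times the product of `n₀`, `|n₀ + b|` and all `F_u(n₀)`, `u ∈ S` or `u ∈ T` -/
def zz (b : ℤ) (S : Fin k → ℕ) (T : Finset ℕ) (n₀ Q : ℕ) : ℕ :=
  Q * ((n₀ * (((n₀ : ℤ) + b).natAbs * ∏ l, (F (S l) n₀).natAbs)) * ∏ u ∈ T, (F u n₀).natAbs)

/-- the product of `1 - ω(p) / p` over the primes of `(z, X]` -/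
noncomputable def V (b : ℤ) (S : Fin k → ℕ) (T : Finset ℕ) (n₀ Q X : ℕ) : ℝ :=
  ∏ p ∈ (Ioc (zz b S T n₀ Q) X).filter Nat.Prime, (1 - (omega b S p : ℝ) / p)

open Classical in
/-- the integers `n` of `(A, B]` described above -/
noncomputable def Good (b : ℤ) (S : Fin k → ℕ) (T : Finset ℕ) (n₀ Q C t X A B : ℕ) : Finset ℕ :=
  (Ioc A B).filter (fun n : ℕ => (∃ p : ℕ, ∃ v : ℤ, ∃ w : Fin k → ℤ,
    n = n₀ * p ∧ (n : ℤ) + b = (n₀ + b) * v ∧ (∀ l, F (S l) n = F (S l) n₀ * w l) ∧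
    p.Prime ∧ (X : ℝ) ^ (1 / (t : ℝ)) < p ∧ Almost 2 ((X : ℝ) ^ (1 / 9 : ℝ)) v ∧
    Almost t ((X : ℝ) ^ (1 / (t : ℝ))) v ∧ (∀ l, Almost (2 * t) ((X : ℝ) ^ (1 / (t : ℝ))) (w l)) ∧
    p ≡ 1 [MOD Q] ∧ v ≡ 1 [ZMOD (Q : ℤ)] ∧ ∀ l, w l ≡ 1 [ZMOD (Q : ℤ)]) ∧
    ∀ u ∈ T, ∃ w : ℤ, F u n = F u n₀ * w ∧ w ≡ 1 [ZMOD (Q : ℤ)] ∧ ∃ q : ℕ, q.Prime ∧ q ≤ C ∧ (q : ℤ) ∣ w)

/-- the terms `a, a + b, ..., a + (s - 1) b` of the progression `z = (a, b)` -/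
def terms (s : ℕ) (z : ℕ × ℕ) : Finset ℕ := (range s).image (fun i => z.1 + i * z.2)

theorem result (b : ℤ) (hb : b ≠ 0) (S : Fin k → ℕ) (hS : ∀ l, 1 ≤ S l) (T : Finset ℕ)
    (hT : ∀ u ∈ T, 1 ≤ u ∧ ∀ l, S l ≠ u) (n₀ Q : ℕ) (hn₀ : 0 < n₀) (hn₁ : (n₀ : ℤ) + b ≠ 0) (hQ : 1 ≤ Q) :
    ∃ C t : ℕ, 1 ≤ t ∧ ∃ κ : ℝ, 0 < κ ∧ ∀ (s r : ℕ) (θ δ : ℝ), 1 ≤ s → 0 < θ → 0 < δ → ∃ c X₀ : ℕ, ∀ X : ℕ, X₀ ≤ X →
      κ / Real.log X ^ (2 * k + 2) ≤ V b S T n₀ Q X ∧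
      ∀ A B : ℕ, B ≤ X → θ * X ≤ (B : ℝ) - A →
        κ * ((B : ℝ) - A) * V b S T n₀ Q X ≤ ((Good b S T n₀ Q C t X A B).card : ℝ) ∧
        ∀ χ : ℕ → Fin r, ∃ P : Finset (ℕ × ℕ),
          (∀ z ∈ P, 1 ≤ z.2 ∧ (z.2 : ℝ) ≤ Real.log X ^ c ∧
            ∀ l < s, z.1 + l * z.2 ∈ Good b S T n₀ Q C t X A B ∧ χ (z.1 + l * z.2) = χ z.1) ∧
          (P : Set (ℕ × ℕ)).PairwiseDisjoint (terms s) ∧
          (((Good b S T n₀ Q C t X A B \ P.biUnion (terms s)).card : ℕ) : ℝ) ≤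
            δ * ((B : ℝ) - A) * V b S T n₀ Q X :=
  Pool.Agent.X32.Uni.achM b hb S hS T hT n₀ Q hn₀ hn₁ hQ

end Pool.Agent.Results.MP_4b1228_nt.AlmostPrimeFamilies
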