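import Pool.Agent.X15.SysS.Iso

/-!
# Primes `(2qn)² + s` and `((2n+1)q)² + t` with the same isolated prime `q`, for most constants `s, t`

The Ankeny–Chowla–Hasse and Lang families are the primes `(2qn)² + 1` and `((2n+1)q)² + 4`, `q` prime. For fixed
multipliers `a_1, ..., a_r ≥ 1` (for instance `2n` and `2n + 1`) and all but an arbitrarily small proportion of the
admissible vectors of positive integers `t_j ≤ x²`, at least `c x / (log x) ^ (r + 1)` primes `q ≤ x`, which moreover have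
no other prime at distance at most `Λ log q`, make all the numbers `(a_j q)² + t_j` prime.

The theorem rests on the library development Pool.Agent.TH882.
-/

set_option autoImplicit false

open Finset Filter Topology

namespace Pool.Agent.Results.MP_4b1228_nt.BothFamiliesMostConstants

/-- `q` is a prime, and no other prime is at distance at most `R` from `q`. -/
def IsolatedPrime (R : ℝ) (q : ℕ) : Prop := q.Prime ∧ ∀ l : ℕ, l.Prime → |(l : ℝ) - q| ≤ R → l = q

/-- No local obstruction: for every prime `l` there is an integer `y` such that `l` divides neither `y` nor any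
`(a_j y)² + t_j`. -/
def Admissible {r : ℕ} (a t : Fin r → ℕ) : Prop :=
  ∀ l : ℕ, l.Prime → ∃ y : ℤ, ¬ (l : ℤ) ∣ y ∧ ∀ j, ¬ (l : ℤ) ∣ (a j * y) ^ 2 + t j

/-- The primes `q ≤ x` without another prime at distance at most `Λ log q` for which all `(a_j q)² + t_j` are prime. -/
def solutions {r : ℕ} (a : Fin r → ℕ) (Λ : ℝ) (t : Fin r → ℕ) (x : ℕ) : Set ℕ :=
  {q : ℕ | q ≤ x ∧ IsolatedPrime (Λ * Real.log q) q ∧ ∀ j, ((a j * q) ^ 2 + t j).Prime}

/-- The admissible vectors of positive integers `t_j ≤ x²` with fewer than `c x / (log x) ^ (r + 1)` such primes. -/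
def exceptions {r : ℕ} (a : Fin r → ℕ) (Λ c : ℝ) (x : ℕ) : Set (Fin r → ℕ) :=
  {t : Fin r → ℕ | (∀ j, 1 ≤ t j ∧ t j ≤ x ^ 2) ∧ Admissible a t ∧
    ((solutions a Λ t x).ncard : ℝ) < c * (x / Real.log x ^ (r + 1))}

lemma main {r : ℕ} (a : Fin r → ℕ) (ha : ∀ j, 1 ≤ a j) (Λ κ : ℝ) (hΛ : 0 < Λ) (hκ : 0 < κ) :
    ∃ c : ℝ, 0 < c ∧ ∃ x₀ : ℕ,
      ∀ x : ℕ, x₀ ≤ x → ((exceptions a Λ c x).ncard : ℝ) ≤ κ * (x : ℝ) ^ (2 * r) := by
  classical
  have ha0 : ∀ j, (((a j ^ 2 : ℕ) : ℤ)) ≠ 0 := fun j => by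
    have := ha j
    have h2 : 0 < a j ^ 2 := by positivity
    exact_mod_cast h2.ne'
  set g : Fin r → Polynomial ℤ := fun j => Polynomial.C ((a j ^ 2 : ℕ) : ℤ) * Polynomial.X ^ 2 with hg
  have hgd : ∀ j, (g j).natDegree = 2 := fun j => Polynomial.natDegree_C_mul_X_pow 2 _ (ha0 j)
  have hge : ∀ j, ∀ n : ℤ, (g j).eval n = (a j * n) ^ 2 := by
    intro j n
    rw [hg]
    simp only [Polynomial.eval_mul, Polynomial.eval_C, Polynomial.eval_pow, Polynomial.eval_X]
    push_cast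
    ring
  obtain ⟨c, hc, x₀, h⟩ := Pool.Agent.X15.SysS.iso_sys (fun _ : Fin r => (1 : ℤ))
    (fun _ => Or.inl rfl) g (fun j => by rw [hgd j]; norm_num)
    (fun j => by
      rw [hg]
      simp only
      rw [Polynomial.leadingCoeff_C_mul_X_pow]
      have := ha j
      positivity) Λ hΛ 1 κ hκ
  refine ⟨c, hc, x₀, fun x hx => ?_⟩
  have h1 := h x hx
  have e0 : ∏ j, (x : ℝ) ^ (g j).natDegree = (x : ℝ) ^ (2 * r) := by
    rw [prod_congr rfl (fun j _ => by rw [hgd j]), prod_const, card_univ, Fintype.card_fin, ← pow_mul]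
  rw [e0] at h1
  refine le_trans ?_ h1
  apply Nat.cast_le.2
  rw [← Set.ncard_coe_finset]
  apply Set.ncard_le_ncard _ (finite_toSet _)
  rintro k ⟨hk1, hk2, hk3⟩
  rw [mem_coe, mem_filter, Fintype.mem_piFinset]
  refine ⟨fun j => ?_, ?_, lt_of_le_of_lt ?_ hk3⟩
  · rw [mem_Icc, hgd j, one_mul]
    exact hk1 j
  · intro l hl
    obtain ⟨y, hy1, hy2⟩ := hk2 l hl
    refine ⟨y, hy1, fun j hd => hy2 j ?_⟩
    rw [one_mul, hge j, add_comm] at hd
    exact hd
  · apply Nat.cast_le.2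
    rw [← Set.ncard_coe_finset]
    apply Set.ncard_le_ncard _ ((Set.finite_Iic x).subset fun n hn => hn.1)
    intro q hq
    rw [mem_coe, mem_filter, mem_Icc] at hq
    obtain ⟨⟨hq1, hq2⟩, hq3, hq4⟩ := hq
    refine ⟨hq2, hq3, fun j => ?_⟩
    have h5 := hq4 j
    rw [one_mul, hge j] at h5
    have h6 : ((k j : ℤ) + ((a j : ℤ) * q) ^ 2).toNat = (a j * q) ^ 2 + k j := by
      have : ((k j : ℤ) + ((a j : ℤ) * q) ^ 2) = (((a j * q) ^ 2 + k j : ℕ) : ℤ) := by push_cast; ring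
      rw [this, Int.toNat_natCast]
    rwa [h6] at h5

/-- **Both families for most constants.** (1) Let `a_1, ..., a_r ≥ 1` be integers and `Λ, κ > 0`. There are `c > 0` and
`x₀` such that for all `x ≥ x₀` and all admissible vectors `(t_1, ..., t_r)` of positive integers `t_j ≤ x²`, with at most
`κ x ^ (2 r)` exceptions, at least `c x / (log x) ^ (r + 1)` primes `q ≤ x` without another prime at distance at most
`Λ log q` make all the numbers `(a_j q)² + t_j` prime. (2) In particular, for every `n ≥ 1`, for all but `κ x ^ 4` of the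
pairs `(s, t)` of positive integers `≤ x²` for which `y, (2ny)² + s, ((2n+1)y)² + t` have no local obstruction, at least
`c x / (log x) ^ 3` such primes `q` make both `(2nq)² + s` and `((2n+1)q)² + t` prime. -/
theorem result :
    (∀ (r : ℕ) (a : Fin r → ℕ), (∀ j, 1 ≤ a j) → ∀ Λ κ : ℝ, 0 < Λ → 0 < κ → ∃ c : ℝ, 0 < c ∧ ∃ x₀ : ℕ,
      ∀ x : ℕ, x₀ ≤ x → ((exceptions a Λ c x).ncard : ℝ) ≤ κ * (x : ℝ) ^ (2 * r)) ∧
    ∀ n : ℕ, 1 ≤ n → ∀ Λ κ : ℝ, 0 < Λ → 0 < κ → ∃ c : ℝ, 0 < c ∧ ∃ x₀ : ℕ,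
      ∀ x : ℕ, x₀ ≤ x → ((exceptions ![2 * n, 2 * n + 1] Λ c x).ncard : ℝ) ≤ κ * (x : ℝ) ^ 4 := by
  refine ⟨fun r a ha Λ κ hΛ hκ => main a ha Λ κ hΛ hκ, fun n hn Λ κ hΛ hκ => ?_⟩
  exact main ![2 * n, 2 * n + 1] (by
    rw [Fin.forall_fin_two]
    constructor
    · show 1 ≤ 2 * n
      omega
    · show 1 ≤ 2 * n + 1
      omega) Λ κ hΛ hκ

end Pool.Agent.Results.MP_4b1228_nt.BothFamiliesMostConstants
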