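import Pool.Agent.X55.Fam.DCor

/-!
# Almost primes in the Ankeny-Chowla-Hasse and Lang families at discrete logarithms

Let `q` be an odd prime, `P` a large prime and `g` a primitive root modulo `P`. We consider the pairs
`(2 q n) ^ 2 + 1`, `((2 n + 1) q) ^ 2 + 4` of members of the two families, for the exponents `n`
* for which the residue of `g ^ n` modulo `P` lies in a given interval (so that `n` is the discrete logarithm of an
  element of an interval); the exponents run over any interval of a length `H < P`, the residues over any interval of a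
  length `K ≤ P`, with `H K ≥ P ^ (3 / 2 + ε)`;
* for which `g ^ n + s` lies in a given coset of a subgroup `S` of the residues, where `|S| H ≥ P ^ (3 / 2 + ε)`;
* for which `g ^ n + s` is again a primitive root, in the intervals of a length `H` with `P ^ (1 / 2 + ε) ≤ H < P`.
Each time the number of the `n` for which both values have a bounded number of prime factors, all greater than `P ^ δ`,
has the expected order of magnitude `N / log ^ 2 P` (`N` is the expected number of the `n`); the number of the `n` for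
which both of them are primes is at most of this order; and the number of the `n` for which they have no prime factor up
to `y` is given by an asymptotic formula.

The proof combines the fundamental lemma of the sieve, Mertens' theorem for polynomials (both in the starting files) and
estimates of the multiplicative characters over intervals and over shifted subgroups.
-/

set_option autoImplicit false

namespace Pool.Agent.Results.MP_4b1228_nt.DiscreteLogarithms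

open Finset Polynomial

/-- `m ≠ 0` has at most `r` prime factors, counted with multiplicity, all of them greater than `x`. -/
def AlmostPrime (r : ℕ) (x : ℝ) (m : ℕ) : Prop :=
  m ≠ 0 ∧ m.primeFactorsList.length ≤ r ∧ ∀ q : ℕ, q.Prime → q ∣ m → x < q

/-- the number of the `n` in `(M, M + H]` with the property `R` for which both values are almost primes -/
noncomputable def almost (q r : ℕ) (x : ℝ) (M H : ℕ) (R : ℕ → Prop) : ℕ :=
  Set.ncard {n : ℕ | M < n ∧ n ≤ M + H ∧ R n ∧ AlmostPrime r x ((2 * q * n) ^ 2 + 1) ∧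
    AlmostPrime r x (((2 * n + 1) * q) ^ 2 + 4)}

/-- the number of the `n` in `(M, M + H]` with the property `R` for which both values are primes -/
noncomputable def primes (q M H : ℕ) (R : ℕ → Prop) : ℕ :=
  Set.ncard {n : ℕ | M < n ∧ n ≤ M + H ∧ R n ∧ ((2 * q * n) ^ 2 + 1).Prime ∧ (((2 * n + 1) * q) ^ 2 + 4).Prime}

/-- the number of the `n` in `(M, M + H]` with the property `R` for which both values have no prime factor up to `y` -/
noncomputable def rough (q y M H : ℕ) (R : ℕ → Prop) : ℕ :=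
  Set.ncard {n : ℕ | M < n ∧ n ≤ M + H ∧ R n ∧ ∀ t : ℕ, t.Prime → t ≤ y →
    ¬ t ∣ (2 * q * n) ^ 2 + 1 ∧ ¬ t ∣ ((2 * n + 1) * q) ^ 2 + 4}

/-- the product over the primes `t ≤ y` of `1 - ν(t) / t`, where `ν(t)` is the number of the residues `a` modulo `t` for
which one of these values is divisible by `t` -/
noncomputable def V (q y : ℕ) : ℝ :=
  ∏ t ∈ (Icc 1 y).filter Nat.Prime,
    (1 - (Set.ncard {a : ℕ | a < t ∧ (t ∣ (2 * q * a) ^ 2 + 1 ∨ t ∣ ((2 * a + 1) * q) ^ 2 + 4)} : ℝ) / t)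

/-- the bounds for the interval `(M, M + H]` and the property `R`, with the expected number `N` -/
def Bounds (q P r : ℕ) (δ c C : ℝ) (B M H : ℕ) (R : ℕ → Prop) (N : ℝ) : Prop :=
  (M + H ≤ P ^ B → c * N / Real.log P ^ 2 ≤ almost q r ((P : ℝ) ^ δ) M H R) ∧
  (primes q M H R : ℝ) ≤ C * N / Real.log P ^ 2

/-- the asymptotic formula for the interval `(M, M + H]` and the property `R`, with the expected number `N` -/
def Rough (q : ℕ) (η : ℝ) (M H y : ℕ) (R : ℕ → Prop) (N : ℝ) : Prop :=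
  |(rough q y M H R : ℝ) - N * V q y| ≤ η * (N * V q y)

/-- the polynomials -/
noncomputable def f (q : ℕ) : Fin 2 → ℤ[X] :=
  ![C (4 * (q : ℤ) ^ 2) * X ^ 2 + C 0 * X + C 1, C (4 * (q : ℤ) ^ 2) * X ^ 2 + C (4 * (q : ℤ) ^ 2) * X + C ((q : ℤ) ^ 2 + 4)]

/-- their values -/
def G (q : ℕ) : Fin 2 → ℤ → ℤ :=
  ![fun n => 4 * (q : ℤ) ^ 2 * n ^ 2 + 0 * n + 1, fun n => 4 * (q : ℤ) ^ 2 * n ^ 2 + 4 * (q : ℤ) ^ 2 * n + ((q : ℤ) ^ 2 + 4)]

/-- the values at natural numbers -/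
def F (q : ℕ) : Fin 2 → ℕ → ℕ := ![fun n => (2 * q * n) ^ 2 + 1, fun n => ((2 * n + 1) * q) ^ 2 + 4]

lemma f_eval (q : ℕ) (i : Fin 2) (n : ℤ) : (f q i).eval n = G q i n := by
  fin_cases i <;> simp [f, G]

lemma lead {q : ℕ} (hq : q ≠ 0) : (4 * (q : ℤ) ^ 2) ≠ 0 := by positivity

lemma f_deg {q : ℕ} (hq : q ≠ 0) (i : Fin 2) : (f q i).natDegree = 2 := by
  fin_cases i
  · show (C (4 * (q : ℤ) ^ 2) * X ^ 2 + C 0 * X + C 1 : ℤ[X]).natDegree = 2
    exact natDegree_quadratic (lead hq)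
  · show (C (4 * (q : ℤ) ^ 2) * X ^ 2 + C (4 * (q : ℤ) ^ 2) * X + C ((q : ℤ) ^ 2 + 4) : ℤ[X]).natDegree = 2
    exact natDegree_quadratic (lead hq)

lemma cop {q : ℕ} (hq : q.Prime) (h2 : q ≠ 2) : IsCoprime (4 * (q : ℤ) ^ 2) ((q : ℤ) ^ 2 + 4) := by
  have h0 : IsCoprime (q : ℤ) 2 := by
    have : Nat.Coprime q 2 := (Nat.coprime_primes hq Nat.prime_two).2 h2
    exact_mod_cast Nat.isCoprime_iff_coprime.2 this
  have h1 : IsCoprime ((q : ℤ) ^ 2) (2 ^ 2) := h0.pow
  have h4 : (2 : ℤ) ^ 2 = 4 := by norm_num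
  rw [h4] at h1
  have h3 : IsCoprime ((q : ℤ) ^ 2) ((q : ℤ) ^ 2 + 4) := by
    have := IsCoprime.add_mul_left_right h1 1
    rw [mul_one] at this
    rwa [add_comm]
  have h5 : IsCoprime (4 : ℤ) ((q : ℤ) ^ 2 + 4) := by
    have := IsCoprime.add_mul_left_right h1.symm 1
    rwa [mul_one] at this
  exact h5.mul_left h3

lemma f_sys {q : ℕ} (hq : q.Prime) (h2 : q ≠ 2) : Pool.Agent.X55.Fam.Sys 2 (f q) := by
  have hq0 : q ≠ 0 := hq.ne_zero
  have hqi : (0 : ℤ) < q := by exact_mod_cast hq.pos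
  refine Pool.Agent.X55.Fam.Sys.mk' ?_ ?_ ?_ 4 ?_ ?_
  · intro i
    fin_cases i
    · show Irreducible (C (4 * (q : ℤ) ^ 2) * X ^ 2 + C 0 * X + C 1 : ℤ[X])
      exact Pool.Agent.X55.Fam.quad_irr _ _ _ (lead hq0) (fun d _ _ h3 => isUnit_of_dvd_one h3)
        (by rintro ⟨s, hs⟩; nlinarith [mul_self_nonneg s, mul_pos hqi hqi])
    · show Irreducible (C (4 * (q : ℤ) ^ 2) * X ^ 2 + C (4 * (q : ℤ) ^ 2) * X + C ((q : ℤ) ^ 2 + 4) : ℤ[X])
      exact Pool.Agent.X55.Fam.quad_irr _ _ _ (lead hq0)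
        (fun d h1 _ h3 => (cop hq h2).isUnit_of_dvd' h1 h3)
        (by rintro ⟨s, hs⟩; nlinarith [mul_self_nonneg s, mul_pos hqi hqi])
  · intro i
    rw [f_deg hq0]
    norm_num
  · intro i j hij
    fin_cases i <;> fin_cases j <;>
      first
      | exact absurd rfl hij
      | exact Pool.Agent.X55.Fam.not_assoc 0 (by
          rw [f_eval, f_eval]
          simp only [G, Fin.mk_zero, Fin.mk_one, Matrix.cons_val_zero, Matrix.cons_val_one, Fin.zero_eta, Fin.isValue]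
          have : (0 : ℤ) ≤ (q : ℤ) ^ 2 := by positivity
          generalize (q : ℤ) ^ 2 = Q at this
          omega)
  · simp [Fin.sum_univ_succ, f_deg hq0]
  · intro p hp hp4
    refine ⟨0, fun i => ?_⟩
    have hG0 : G q 0 0 = 1 := by simp [G]
    have hG1 : G q 1 0 = (q : ℤ) ^ 2 + 4 := by simp [G]
    rw [f_eval]
    fin_cases i
    · show ¬ (p : ℤ) ∣ G q 0 0
      rw [hG0]
      intro h
      have := Int.eq_one_of_dvd_one (by positivity) h
      exact hp.one_lt.ne' (by exact_mod_cast this)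
    · show ¬ (p : ℤ) ∣ G q 1 0
      rw [hG1]
      have hodd : (q : ℤ) % 2 = 1 := by
        rcases hq.eq_two_or_odd with h | h
        · exact absurd h h2
        · omega
      have hp23 : p = 2 ∨ p = 3 := by
        interval_cases p
        · exact absurd hp (by norm_num)
        · exact absurd hp (by norm_num)
        · exact Or.inl rfl
        · exact Or.inr rfl
        · exact absurd hp (by norm_num)
      rcases hp23 with rfl | rfl
      · intro h
        have h3 : ((q : ℤ) ^ 2 + 4) % 2 = 0 := Int.emod_eq_zero_of_dvd h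
        have h4 : ((q : ℤ) ^ 2 + 4) % 2 = (((q : ℤ) % 2) ^ 2 + 4) % 2 := by
          simp [pow_two, Int.add_emod, Int.mul_emod]
        rw [h4, hodd] at h3
        norm_num at h3
      · intro h
        have h3 : ((q : ℤ) ^ 2 + 4) % 3 = 0 := Int.emod_eq_zero_of_dvd h
        have h4 : ((q : ℤ) ^ 2 + 4) % 3 = (((q : ℤ) % 3) ^ 2 + 4) % 3 := by
          simp [pow_two, Int.add_emod, Int.mul_emod]
        rw [h4] at h3
        have h5 : (q : ℤ) % 3 = 0 ∨ (q : ℤ) % 3 = 1 ∨ (q : ℤ) % 3 = 2 := by omega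
        rcases h5 with h | h | h <;> rw [h] at h3 <;> norm_num at h3

lemma hF (q : ℕ) (i : Fin 2) (n : ℕ) : ((f q i).eval (n : ℤ)).natAbs = F q i n := by
  rw [f_eval]
  fin_cases i
  · show (4 * (q : ℤ) ^ 2 * (n : ℤ) ^ 2 + 0 * (n : ℤ) + 1).natAbs = (2 * q * n) ^ 2 + 1
    rw [show (4 * (q : ℤ) ^ 2 * (n : ℤ) ^ 2 + 0 * (n : ℤ) + 1) = (((2 * q * n) ^ 2 + 1 : ℕ) : ℤ) by push_cast; ring,
      Int.natAbs_natCast]
  · show (4 * (q : ℤ) ^ 2 * (n : ℤ) ^ 2 + 4 * (q : ℤ) ^ 2 * (n : ℤ) + ((q : ℤ) ^ 2 + 4)).natAbs =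
      ((2 * n + 1) * q) ^ 2 + 4
    rw [show (4 * (q : ℤ) ^ 2 * (n : ℤ) ^ 2 + 4 * (q : ℤ) ^ 2 * (n : ℤ) + ((q : ℤ) ^ 2 + 4)) =
      ((((2 * n + 1) * q) ^ 2 + 4 : ℕ) : ℤ) by push_cast; ring, Int.natAbs_natCast]

lemma conv {q P r : ℕ} {δ c C : ℝ} {B M H : ℕ} {R : ℕ → Prop} {N : ℝ}
    (h : Pool.Agent.X55.Fam.Both (F q) P r δ c C B M H R N) : Bounds q P r δ c C B M H R N := by
  unfold Pool.Agent.X55.Fam.Both at h
  simpa [Bounds, almost, primes, AlmostPrime, F, Pool.Agent.X55.Fam.Good, Fin.forall_fin_succ] using h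

lemma convA {q : ℕ} {η : ℝ} {M H y : ℕ} {R : ℕ → Prop} {N : ℝ}
    (h : Pool.Agent.X55.Fam.Asym (F q) η M H y R N) : Rough q η M H y R N := by
  unfold Pool.Agent.X55.Fam.Asym at h
  simpa [Rough, rough, V, F, Fin.forall_fin_succ, Fin.exists_fin_succ] using h

theorem result : ∀ q : ℕ, q.Prime → q ≠ 2 →
    (∀ ε : ℝ, 0 < ε → ∀ B : ℕ, ∃ (r : ℕ) (δ c C : ℝ) (P₀ : ℕ), 0 < δ ∧ 0 < c ∧ 0 < C ∧
      ∀ P : ℕ, P₀ ≤ P → ∀ [Fact P.Prime] (g : ZMod P), orderOf g = P - 1 →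
      -- the residue of `g ^ n` in an interval
      (∀ M H L K : ℕ, H ≤ P - 1 → K ≤ P → (P : ℝ) ^ (3 / 2 + ε) ≤ (H : ℝ) * K →
        Bounds q P r δ c C B M H (fun n => ∃ m : ℕ, L < m ∧ m ≤ L + K ∧ g ^ n = m) (K * H / P)) ∧
      -- `g ^ n + s` in a coset of a subgroup
      (∀ (S : Subgroup (ZMod P)ˣ) (b : (ZMod P)ˣ) (s : ZMod P), s ≠ 0 → ∀ M H : ℕ, H ≤ P - 1 → 
        (P : ℝ) ^ (3 / 2 + ε) ≤ (Nat.card S : ℝ) * H →
        Bounds q P r δ c C B M H (fun n => ∃ u ∈ S, g ^ n + s = (b : ZMod P) * (u : ZMod P))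
          (Nat.card S * H / P)) ∧
      -- `g ^ n + s` a primitive root
      (∀ s : ZMod P, s ≠ 0 → ∀ M H : ℕ, H ≤ P - 1 → (P : ℝ) ^ (1 / 2 + ε) ≤ H →
        Bounds q P r δ c C B M H (fun n => orderOf (g ^ n + s) = P - 1) ((P - 1).totient * H / P))) ∧
    -- the asymptotic formulas
    (∀ ε η : ℝ, 0 < ε → 0 < η → ∃ (δ : ℝ) (P₀ : ℕ), 0 < δ ∧
      ∀ P : ℕ, P₀ ≤ P → ∀ [Fact P.Prime] (g : ZMod P), orderOf g = P - 1 →
      ∀ y : ℕ, 3 ≤ y → (y : ℝ) ≤ (P : ℝ) ^ δ →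
      -- the residue of `g ^ n` in an interval
      (∀ M H L K : ℕ, H ≤ P - 1 → K ≤ P → (P : ℝ) ^ (3 / 2 + ε) ≤ (H : ℝ) * K →
        Rough q η M H y (fun n => ∃ m : ℕ, L < m ∧ m ≤ L + K ∧ g ^ n = m) (K * H / P)) ∧
      -- `g ^ n + s` in a coset of a subgroup
      (∀ (S : Subgroup (ZMod P)ˣ) (b : (ZMod P)ˣ) (s : ZMod P), s ≠ 0 → ∀ M H : ℕ, H ≤ P - 1 → 
        (P : ℝ) ^ (3 / 2 + ε) ≤ (Nat.card S : ℝ) * H →
        Rough q η M H y (fun n => ∃ u ∈ S, g ^ n + s = (b : ZMod P) * (u : ZMod P))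
          (Nat.card S * H / P)) ∧
      -- `g ^ n + s` a primitive root
      (∀ s : ZMod P, s ≠ 0 → ∀ M H : ℕ, H ≤ P - 1 → (P : ℝ) ^ (1 / 2 + ε) ≤ H →
        Rough q η M H y (fun n => orderOf (g ^ n + s) = P - 1) ((P - 1).totient * H / P))) := by
  intro q hq h2
  constructor
  · intro ε hε B
    obtain ⟨r, δ, c, C, P₀, hδ, hc, hC, h⟩ := Pool.Agent.X55.Fam.dlog_cor (f_sys hq h2) (F q) (hF q) ε hε B
    refine ⟨r, δ, c, C, P₀, hδ, hc, hC, ?_⟩
    intro P hP _ g hg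
    obtain ⟨h1, h2, h3⟩ := h P hP g hg
    exact ⟨fun M H L K hH hK hHK => conv (h1 M H L K hH hK hHK),
      fun S b s hs M H hH hSH => conv (h2 S b s hs M H hH hSH),
      fun s hs M H hH hPH => conv (h3 s hs M H hH hPH)⟩
  · intro ε η hε hη
    obtain ⟨δ, P₀, hδ, h⟩ := Pool.Agent.X55.Fam.dlog_corA (f_sys hq h2) (F q) (hF q) ε η hε hη
    refine ⟨δ, P₀, hδ, ?_⟩
    intro P hP _ g hg y hy hyP
    obtain ⟨h1, h2, h3⟩ := h P hP g hg y hy hyP
    exact ⟨fun M H L K hH hK hHK => convA (h1 M H L K hH hK hHK),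
      fun S b s hs M H hH hSH => convA (h2 S b s hs M H hH hSH),
      fun s hs M H hH hPH => convA (h3 s hs M H hH hPH)⟩

end Pool.Agent.Results.MP_4b1228_nt.DiscreteLogarithms
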