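import Pool.Agent.X69.Ric.InsQ

/-!
# Vectors of consecutive gaps of the primes `q` with `(u q) ^ 2 + 1` or `(u q) ^ 2 + 4` prime or almost prime

The primes of the two families are the primes `(u q) ^ 2 + 1`, `u ≥ 4` even, `q` prime, and `(u q) ^ 2 + 4`,
`u ≥ 3` odd, `q` prime. For every `u ≥ 1` and every set `A` of integers `n` in an interval `(Z, Z + Y]` of length
`Y ≥ X ^ θ` such that `n` and the value `(u n) ^ 2 + 1` or `(u n) ^ 2 + 4` have no prime factors below `X ^ δ`,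
with at least `c Y / (log X) ^ 2` elements, and for every `m` a positive proportion of all vectors of `m` positive
integers up to `K (log X) ^ 2` are vectors of `m` consecutive gaps of `A`, each of them for at least
`κ Y / (log X) ^ (2 (m + 1))` elements. The primes `q` in `(X, 2 X]` for which the value has at most `r` prime
factors, all larger than `q ^ (1 / r)`, are such a set.
-/

set_option autoImplicit false

namespace Pool.Agent.Results.MP_4b1228_nt.GapVectors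

open Filter

/-- The value `(u n) ^ 2 + 1` if `u` is even and `(u n) ^ 2 + 4` if `u` is odd. -/
def value (u n : ℕ) : ℕ := (u * n) ^ 2 + if u % 2 = 0 then 1 else 4

/-- No prime factor of `n` and of `value u n` is less than `y`. -/
def Rough (u : ℕ) (y : ℝ) (n : ℕ) : Prop := ∀ q : ℕ, q.Prime → (q ∣ n ∨ q ∣ value u n) → y ≤ q

/-- `h` is the vector of the `m` gaps of `A` that follow `n`: all `h i` are positive and the elements of `A`
between `n` and `n + h 0 + ... + h (m - 1)` are exactly `n`, `n + h 0`, `n + h 0 + h 1`, .... -/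
def NextGaps (A : Set ℕ) {m : ℕ} (h : Fin m → ℕ) (n : ℕ) : Prop :=
  (∀ i, 0 < h i) ∧ ∀ x, (x ∈ A ∧ n ≤ x ∧ x ≤ n + ∑ i, h i) ↔
    ∃ j : ℕ, j ≤ m ∧ x = n + ∑ i ∈ Finset.univ.filter (fun i : Fin m => (i : ℕ) < j), h i

/-- The number of the elements of `A` in `(Z, Z + Y]` after which `h` is the vector of the next `m` gaps. -/
noncomputable def freq (A : Set ℕ) (Z Y : ℕ) {m : ℕ} (h : Fin m → ℕ) : ℕ :=
  {n | n ∈ A ∧ n ∈ Set.Ioc Z (Z + Y) ∧ NextGaps A h n}.ncard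

/-- The number of the vectors `h` of `m` positive integers up to `K (log X) ^ 2` that are the vector of the next
`m` gaps for at least `κ Y / (log X) ^ (2 (m + 1))` elements of `A` in `(Z, Z + Y]`. -/
noncomputable def frequent (A : Set ℕ) (X Z Y m : ℕ) (K κ : ℝ) : ℕ :=
  {h : Fin m → ℕ | (∀ i, 0 < h i ∧ (h i : ℝ) ≤ K * Real.log X ^ 2) ∧
    κ * Y / Real.log X ^ (2 * (m + 1)) ≤ (freq A Z Y h : ℝ)}.ncard

/-- The primes `q` such that `value u q` has at most `r` prime factors, counted with multiplicity, all of them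
larger than `q ^ (1 / r)`. -/
def Almost (u r : ℕ) : Set ℕ :=
  {q | q.Prime ∧ ArithmeticFunction.cardFactors (value u q) ≤ r ∧
    ∀ p : ℕ, p.Prime → p ∣ value u q → (q : ℝ) ^ (1 / (r : ℝ)) < p}

/-- **Gap vectors** of the primes `q` with `(u q) ^ 2 + 1` or `(u q) ^ 2 + 4` prime or almost prime. -/
theorem result (u : ℕ) (hu : 1 ≤ u) (m : ℕ) (hm : 1 ≤ m) :
    (∀ δ θ c : ℝ, 0 < δ → 0 < θ → 0 < c → ∃ K : ℝ, 0 < K ∧ ∃ κ : ℝ, 0 < κ ∧
      ∀ᶠ X : ℕ in atTop, ∀ Z Y : ℕ, (X : ℝ) ^ θ ≤ Y → ∀ A : Set ℕ,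
        (∀ n ∈ A, n ∈ Set.Ioc Z (Z + Y) → Rough u ((X : ℝ) ^ δ) n) →
        c * Y / Real.log X ^ 2 ≤ ((A ∩ Set.Ioc Z (Z + Y)).ncard : ℝ) →
        κ * Real.log X ^ (2 * m) ≤ (frequent A X Z Y m K κ : ℝ)) ∧
    ∃ r₀ : ℕ, 2 ≤ r₀ ∧ ∀ r : ℕ, r₀ ≤ r → ∃ K : ℝ, 0 < K ∧ ∃ κ : ℝ, 0 < κ ∧
      ∀ᶠ X : ℕ in atTop, κ * Real.log X ^ (2 * m) ≤ (frequent (Almost u r) X X X m K κ : ℝ) := by
  have H := Pool.Agent.X69.Ric.InsQ.psys u hu
  refine ⟨fun δ θ c hδ hθ hc => ?_, ?_⟩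
  · obtain ⟨K, hK, κ, hκ, h⟩ := H.frq δ θ c hδ hθ hc m hm
    refine ⟨K, hK, κ, hκ, ?_⟩
    filter_upwards [h] with X hX Z Y hXY A hA hlow
    refine hX Z Y hXY A (fun n hn hnI q hq hd => hA n hn hnI q hq (hd.imp_right ?_)) hlow
    rintro ⟨i, hi⟩
    exact hi
  · obtain ⟨r₀, hr₀, h⟩ := H.frqAl m hm
    refine ⟨r₀, hr₀, fun r hr => ?_⟩
    obtain ⟨K, hK, κ, hκ, h1⟩ := h r hr
    refine ⟨K, hK, κ, hκ, ?_⟩
    have e : Pool.Agent.X69.Ric.AVp (Pool.Agent.X69.Ric.InsQ.vQ u) r = Almost u r := by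
      ext q
      exact ⟨fun hq => ⟨hq.1, (hq.2 0).1, (hq.2 0).2⟩, fun hq => ⟨hq.1, fun _ => ⟨hq.2.1, hq.2.2⟩⟩⟩
    rw [e] at h1
    exact h1

end Pool.Agent.Results.MP_4b1228_nt.GapVectors
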